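import Mathlib

set_option autoImplicit false

namespace Pool.Agent.Results.MP_b9ac25_al.P1P2

open scoped commutatorElement

universe u v

/-- `C G j` is the term `C^{j+1} G` of the lower central series. -/
def C (G : Type u) [Group G] : ℕ → Subgroup G
  | 0 => ⊤
  | j + 1 => ⁅(⊤ : Subgroup G), C G j⁆

instance C_normal (G : Type u) [Group G] : ∀ j, (C G j).Normal
  | 0 => Subgroup.normal_top
  | j + 1 => haveI := C_normal G j; Subgroup.commutator_normal _ _

lemma C_map {G : Type u} {H : Type v} [Group G] [Group H] (f : G →* H) :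
    ∀ j, C G j ≤ (C H j).comap f
  | 0 => le_top
  | j + 1 => Subgroup.commutator_le.2 fun a _ b hb => by
      rw [Subgroup.mem_comap, map_commutatorElement]
      exact Subgroup.commutator_mem_commutator trivial (C_map f j hb)

/-- Property (P1). -/
def P1 (Γ : Type u) [Group Γ] : Prop :=
  ∃ ι : Type v, ∀ j, Nonempty (Γ ⧸ C Γ j ≃* FreeGroup ι ⧸ C (FreeGroup ι) j)

/-- Property (P2). -/
def P2 (Γ : Type u) [Group Γ] : Prop :=
  ∃ (ι : Type v) (φ : FreeGroup ι →* Γ), ∀ j,
    Function.Bijective (QuotientGroup.map (C (FreeGroup ι) j) (C Γ j) φ (C_map φ j))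

section
variable {G : Type u} [Group G]

lemma C_succ_le (j : ℕ) : C G (j + 1) ≤ C G j := Subgroup.commutator_le_right _ _

lemma central {j : ℕ} {p : G} (hp : p ∈ C G j) (y : G ⧸ C G (j + 1)) :
    y * (p : G ⧸ C G (j + 1)) = p * y := by
  obtain ⟨q, rfl⟩ := QuotientGroup.mk_surjective y
  have : ((⁅q, p⁆ : G) : G ⧸ C G (j + 1)) = 1 :=
    (QuotientGroup.eq_one_iff _).2 (Subgroup.commutator_mem_commutator trivial hp)
  exact commutatorElement_eq_one_iff_mul_comm.1 this

lemma unip (α : G →* G) (h : ∀ x, α x * x⁻¹ ∈ C G 1) :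
    ∀ k, ∀ x ∈ C G k, α x * x⁻¹ ∈ C G (k + 1) := by
  intro k
  induction k with
  | zero => exact fun x _ => h x
  | succ k ih =>
    let π := QuotientGroup.mk' (C G (k + 2))
    have key : C G (k + 1) ≤ (π.comp α).eqLocus π := by
      refine Subgroup.commutator_le.2 fun q _ p hp => ?_
      have hc : ∀ a : G, ⁅a, p⁆ ∈ C G (k + 1) := fun a =>
        Subgroup.commutator_mem_commutator trivial hp
      let f : G →* G ⧸ C G (k + 2) := MonoidHom.mk' (fun a => π ⁅a, p⁆) (fun a b => by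
        have e : ⁅a * b, p⁆ = a * ⁅b, p⁆ * a⁻¹ * ⁅a, p⁆ := by
          simp only [commutatorElement_def]; group
        have c := central (hc b)
        change ∀ y, y * π _ = π _ * y at c
        rw [e, map_mul, map_mul, map_mul, c (π a), mul_assoc (π _) (π a), ← map_mul,
          mul_inv_cancel, map_one, mul_one, c])
      have hf : C G 1 ≤ f.ker := Subgroup.commutator_le.2 fun a _ b _ => by
        rw [MonoidHom.mem_ker, map_commutatorElement, commutatorElement_eq_one_iff_mul_comm]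
        exact central (hc b) _
      have h1 : f (α q) = f q := by
        have := hf (h q)
        rwa [MonoidHom.mem_ker, map_mul, map_inv, mul_inv_eq_one] at this
      have c := central (ih p hp)
      change ∀ y, y * π _ = π _ * y at c
      change π (α ⁅q, p⁆) = f q
      rw [← h1, map_commutatorElement]
      change π _ = π _
      have e : ⁅α q, α p⁆ = α q * (α p * p⁻¹) * (p * (α q)⁻¹ * p⁻¹) * (α p * p⁻¹)⁻¹ := by
        simp only [commutatorElement_def]; group
      rw [e, map_mul, map_mul, map_mul, c (π (α q)), mul_assoc (π (α p * p⁻¹)), ← c, map_inv,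
        mul_inv_cancel_right, ← map_mul]
      congr 1
      simp only [commutatorElement_def]; group
    intro x hx
    have : π (α x) = π x := key hx
    rw [← QuotientGroup.eq_one_iff]
    change π _ = 1
    rw [map_mul, map_inv, this, mul_inv_cancel]

lemma unip_inj (α : G →* G) (h : ∀ x, α x * x⁻¹ ∈ C G 1) (k : ℕ) (x : G) (hx : α x ∈ C G k) :
    x ∈ C G k := by
  induction k with
  | zero => trivial
  | succ k ih =>
    have := (C G (k + 1)).mul_mem ((C G (k + 1)).inv_mem (unip α h k x (ih (C_succ_le k hx)))) hx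
    simpa using this

lemma unip_surj (α : G →* G) (h : ∀ x, α x * x⁻¹ ∈ C G 1) (k : ℕ) (y : G) :
    ∃ x, α x * y⁻¹ ∈ C G k := by
  induction k with
  | zero => exact ⟨1, trivial⟩
  | succ k ih =>
    obtain ⟨x, hx⟩ := ih
    refine ⟨(α x * y⁻¹)⁻¹ * x, ?_⟩
    have := unip α h k _ ((C G k).inv_mem hx)
    rw [inv_inv] at this
    rwa [map_mul, mul_assoc]

end

/-- `f` induces a bijection on abelianizations. -/
def Ab {A : Type u} {B : Type v} [Group A] [Group B] (f : A →* B) : Prop :=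
  (∀ b, ∃ a, f a * b⁻¹ ∈ C B 1) ∧ ∀ a, f a ∈ C B 1 → a ∈ C A 1

lemma Ab.comp {A B D : Type*} [Group A] [Group B] [Group D] {f : A →* B} {g : B →* D}
    (hg : Ab g) (hf : Ab f) : Ab (g.comp f) := by
  refine ⟨fun d => ?_, fun a h => hf.2 a (hg.2 _ h)⟩
  obtain ⟨b, hb⟩ := hg.1 d
  obtain ⟨a, ha⟩ := hf.1 b
  refine ⟨a, ?_⟩
  have := (C D 1).mul_mem (C_map g 1 ha) hb
  simpa using this

lemma ab_of_surj {A B : Type*} [Group A] [Group B] {f : A →* B} (hf : Function.Surjective f)
    (hk : f.ker ≤ C A 1) : Ab f := by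
  refine ⟨fun b => ?_, fun a h => ?_⟩
  · obtain ⟨a, rfl⟩ := hf b; exact ⟨a, by simp⟩
  · have : C B 1 = (C A 1).map f := by
      simp only [C, Subgroup.map_commutator, Subgroup.map_top_of_surjective f hf]
    rw [this] at h
    obtain ⟨a', h1, h2⟩ := h
    have : a * a'⁻¹ ∈ f.ker := by simp [MonoidHom.mem_ker, h2]
    simpa using (C A 1).mul_mem (hk this) h1

lemma C_le_one {G : Type u} [Group G] (j : ℕ) : C G (j + 1) ≤ C G 1 :=
  Subgroup.commutator_mono le_rfl le_top

lemma ab_mk (G : Type u) [Group G] (j : ℕ) : Ab (QuotientGroup.mk' (C G (j + 1))) :=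
  ab_of_surj (QuotientGroup.mk'_surjective _) (by rw [QuotientGroup.ker_mk']; exact C_le_one j)

lemma Ab.cancel {A B D : Type*} [Group A] [Group B] [Group D] {f : A →* B} {g : B →* D}
    (hg : Ab g) (h : Ab (g.comp f)) : Ab f := by
  refine ⟨fun b => ?_, fun a ha => h.2 a (C_map g 1 ha)⟩
  obtain ⟨a, ha⟩ := h.1 (g b)
  exact ⟨a, hg.2 _ (by simpa using ha)⟩

lemma free_lift {ι : Type v} {B D : Type*} [Group B] [Group D] (π : B →* D)
    (hπ : Function.Surjective π) (ρ : FreeGroup ι →* D) : ∃ β : FreeGroup ι →* B, π.comp β = ρ := by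
  choose s hs using fun i => hπ (ρ (FreeGroup.of i))
  exact ⟨FreeGroup.lift s, by ext i; simp [hs]⟩

lemma free_ab {ι : Type v} (β : FreeGroup ι →* FreeGroup ι) (h : Ab β) (k : ℕ) :
    (∀ y, ∃ x, β x * y⁻¹ ∈ C _ k) ∧ ∀ x, β x ∈ C _ k → x ∈ C _ k := by
  choose s hs using fun i => h.1 (FreeGroup.of i)
  let ψ : FreeGroup ι →* FreeGroup ι := FreeGroup.lift s
  let π := QuotientGroup.mk' (C (FreeGroup ι) 1)
  have e : π.comp (β.comp ψ) = π := by
    ext i
    have := (QuotientGroup.eq_one_iff _).2 (hs i)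
    change π _ = 1 at this
    rw [map_mul, map_inv, mul_inv_eq_one] at this
    simpa [ψ] using this
  have h1 : ∀ x, (β.comp ψ) x * x⁻¹ ∈ C _ 1 := by
    intro x
    rw [← QuotientGroup.eq_one_iff]
    change π _ = 1
    rw [map_mul, map_inv, mul_inv_eq_one]
    exact DFunLike.congr_fun e x
  have h2 : ∀ x, (ψ.comp β) x * x⁻¹ ∈ C _ 1 := fun x => h.2 _ (by simpa using h1 (β x))
  refine ⟨fun y => ?_, fun x hx => unip_inj _ h2 k x (C_map ψ k hx)⟩
  obtain ⟨x, hx⟩ := unip_surj _ h1 k y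
  exact ⟨ψ x, hx⟩

/-- Every group with (P1) has (P2). -/
theorem result (Γ : Type u) [Group Γ] (h : P1.{u, v} Γ) : P2.{u, v} Γ := by
  obtain ⟨ι, h⟩ := h
  obtain ⟨θ1⟩ := h 1
  obtain ⟨φ, hφ⟩ := free_lift (QuotientGroup.mk' (C Γ 1)) (QuotientGroup.mk'_surjective _)
    (θ1.symm.toMonoidHom.comp (QuotientGroup.mk' (C (FreeGroup ι) 1)))
  have abe : ∀ {A : Type u} {B : Type v} [Group A] [Group B] (θ : A ≃* B),
      Ab θ.toMonoidHom ∧ Ab θ.symm.toMonoidHom := fun θ =>
    ⟨ab_of_surj θ.surjective (by rw [(MonoidHom.ker_eq_bot_iff _).2 θ.injective]; exact bot_le),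
      ab_of_surj θ.symm.surjective
        (by rw [(MonoidHom.ker_eq_bot_iff _).2 θ.symm.injective]; exact bot_le)⟩
  have hab : Ab φ := (ab_mk Γ 0).cancel (by rw [hφ]; exact (abe θ1).2.comp (ab_mk _ 0))
  refine ⟨ι, φ, fun j => ?_⟩
  cases j with
  | zero =>
    have : Subsingleton (Γ ⧸ C Γ 0) := QuotientGroup.subsingleton_quotient_top
    have : Subsingleton (FreeGroup ι ⧸ C (FreeGroup ι) 0) := QuotientGroup.subsingleton_quotient_top
    exact ⟨fun _ _ _ => Subsingleton.elim _ _, fun _ => ⟨1, Subsingleton.elim _ _⟩⟩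
  | succ j =>
    obtain ⟨θ⟩ := h (j + 1)
    obtain ⟨β, hβ⟩ := free_lift (QuotientGroup.mk' (C (FreeGroup ι) (j + 1)))
      (QuotientGroup.mk'_surjective _)
      (θ.toMonoidHom.comp ((QuotientGroup.mk' (C Γ (j + 1))).comp φ))
    have hb : Ab β := (ab_mk _ j).cancel (by rw [hβ]; exact (abe θ).1.comp ((ab_mk Γ j).comp hab))
    obtain ⟨h1, h2⟩ := free_ab β hb (j + 1)
    have e : ∀ x, ((β x : FreeGroup ι) : FreeGroup ι ⧸ C _ (j + 1)) = θ (φ x : Γ ⧸ C Γ (j + 1)) :=
      fun x => DFunLike.congr_fun hβ x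
    constructor
    · rw [injective_iff_map_eq_one]
      intro x hx
      obtain ⟨x, rfl⟩ := QuotientGroup.mk_surjective x
      rw [QuotientGroup.map_mk] at hx
      refine (QuotientGroup.eq_one_iff _).2 (h2 x ((QuotientGroup.eq_one_iff _).1 ?_))
      rw [e, hx, map_one]
    · intro y
      obtain ⟨z, hz⟩ := QuotientGroup.mk_surjective (θ y)
      obtain ⟨x, hx⟩ := h1 z
      refine ⟨x, θ.injective ?_⟩
      rw [QuotientGroup.map_mk, ← e, ← hz]
      have := (QuotientGroup.eq_one_iff _).2 hx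
      rwa [QuotientGroup.mk_mul, QuotientGroup.mk_inv, mul_inv_eq_one] at this

end Pool.Agent.Results.MP_b9ac25_al.P1P2
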